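import Pool.Agent.P.MP_169bcc_al.Layers

set_option autoImplicit false

namespace Pool.Agent.Results.MP_169bcc_al.Layered

/-- The index of a covering subgroup is bounded in terms of `n` and `k` when `H` has a normal
series of length `k` whose factors are nilpotent of squarefree exponent or are contained in a
product of normal subgroups of class at most `k`. -/
theorem result : ∃ f : ℕ → ℕ → ℕ, ∀ (A : Type) [Group A] [Finite A] (H U : Subgroup A),
    H.Normal → U ≤ H → (∀ h ∈ H, ∃ a : A, a * h * a⁻¹ ∈ U) →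
    ∀ (k : ℕ) (S : ℕ → Subgroup H), (∀ i, (S i).Normal) → S 0 = ⊥ → S k = ⊤ →
      (∀ i < k,
        (∃ e c : ℕ, Squarefree e ∧ (∀ x ∈ S (i + 1), x ^ e ∈ S i) ∧
          (S (i + 1)).lowerCentralSeries c ≤ S i) ∨
        S (i + 1) ≤ sSup {V : Subgroup H | V.Normal ∧ V.lowerCentralSeries k ≤ S i}) →
      (U.subgroupOf H).index ≤ f H.index k := by
  choose f hf using P.MP_169bcc_al.layered
  refine ⟨f, fun A _ _ H U hH hU hc k S hS h0 hk h => le_trans ?_
    (hf H.index k A H U hU le_rfl hc S hS h0 hk h)⟩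
  exact Nat.le_of_dvd (Nat.pos_of_ne_zero Subgroup.index_ne_zero_of_finite)
    (Subgroup.relIndex_dvd_index_of_le hU)

end Pool.Agent.Results.MP_169bcc_al.Layered
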