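import Pool.Agent.P.MP_169bcc_al.NC.Final
import Pool.Agent.P.MP_169bcc_al.NC.GL
import Pool.Agent.P.MP_169bcc_al.NC.Kr
import Pool.Agent.P.MP_169bcc_al.NC.Ka
import Pool.Agent.P.MP_169bcc_al.NC.Uni
import Pool.Agent.P.MP_169bcc_al.NC.GrF
import Pool.Agent.P.MP_169bcc_al.NC.Br

set_option autoImplicit false

namespace Pool.Agent.Results.MP_169bcc_al.NilCover

open P.MP_169bcc_al.NC in
/-- The index of a nilpotent covering subgroup of class at most `k` of a solvable group `H` is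
bounded in terms of `n` and `k` when, for every prime `p` dividing the order of `H`, the group
`A ⧸ H` has a normal series whose factors are cyclic or `p`-groups. -/
theorem result : ∃ f : ℕ → ℕ → ℕ, ∀ (A : Type) [Group A] [Finite A] (H U : Subgroup A)
    [H.Normal], U ≤ H → (∀ h ∈ H, ∃ a : A, a * h * a⁻¹ ∈ U) → Group.IsSolvable H →
    (∀ p : ℕ, p.Prime → p ∣ Nat.card H → ∃ (m : ℕ) (N : ℕ → Subgroup (A ⧸ H)),
      N 0 = ⊥ ∧ N m = ⊤ ∧ (∀ i, (N i).Normal) ∧
        ∀ i < m, (∃ g : A ⧸ H, N (i + 1) = N i ⊔ Subgroup.zpowers g) ∨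
          (N i ≤ N (i + 1) ∧ ∀ x ∈ N (i + 1), ∃ e : ℕ, x ^ p ^ e ∈ N i)) →
    ∀ k : ℕ, U.lowerCentralSeries k = ⊥ → (U.subgroupOf H).index ≤ f H.index k := by
  choose c hc using cls gl_ok (ka_ok kr_ok) grf_ok uni_ok step_ok ch_ok br_ok
  exact ⟨fun n k => n ^ (c n k * n), fun A _ _ H U _ hU hcov hs hP k hk =>
    idx H U hU hcov (hc H.index k A H U rfl hU hcov hs hk hP)⟩

end Pool.Agent.Results.MP_169bcc_al.NilCover
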