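import Pool.Agent.P.MP_169bcc_al.BN.All

set_option autoImplicit false

namespace Pool.Agent.Results.MP_169bcc_al.NilpotentRank

/-- The index of a covering subgroup is bounded in terms of `n` and `d` when `H` is nilpotent,
every subgroup of `H` is generated by `d` elements and `A / H` is nilpotent of order `n` prime
to six. -/
theorem result : ∃ f : ℕ → ℕ → ℕ, ∀ (A : Type) [Group A] [Finite A] (H U : Subgroup A)
    [H.Normal], U ≤ H → (∀ h ∈ H, ∃ a : A, a * h * a⁻¹ ∈ U) → Group.IsNilpotent H →
    Group.IsNilpotent (A ⧸ H) → H.index.Coprime 6 → ∀ d : ℕ,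
      (∀ K : Subgroup A, K ≤ H → ∃ S : Finset A, S.card ≤ d ∧ Subgroup.closure (S : Set A) = K) →
      (U.subgroupOf H).index ≤ f H.index d := by
  choose! f hf using P.MP_169bcc_al.BR.mainN
  exact ⟨fun n d => f n n d, fun A _ _ H U hH hU hc hn hq h6 d hd =>
    hf H.index H.index d h6 A H U hH hn rfl (P.MP_169bcc_al.BR.nq_tk A H hq) hd hU hc⟩

end Pool.Agent.Results.MP_169bcc_al.NilpotentRank
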